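import Mathlib

namespace Pool.Agent.Helper45.Old.NotEventuallyConstant

/-- `E` (a set of finite sets of vertices) is the edge set of an `r`-graph. -/
def IsRGraph {V : Type} (r : ℕ) (E : Set (Finset V)) : Prop := ∀ e ∈ E, e.card = r

/-- `E` is the edge set of a `t`-partite `r`-graph, where `part v` is the index of the part
containing the vertex `v`: all the `t` parts are nonempty, every edge has `r` vertices, and every
edge meets every part in at most one vertex. -/
def IsPartite {V : Type} (r : ℕ) {t : ℕ} (part : V → Fin t) (E : Set (Finset V)) : Prop :=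
  Function.Surjective part ∧ ∀ e ∈ E, e.card = r ∧ Set.InjOn part (e : Set V)

/-- The density on the set `I` of parts: the number of edges meeting all the parts in `I`
divided by the product of the sizes of these parts. -/
noncomputable def density {V : Type} {t : ℕ} (part : V → Fin t) (E : Set (Finset V))
    (I : Finset (Fin t)) : ℝ :=
  ({e ∈ E | ∀ i ∈ I, ∃ v ∈ e, part v = i}.ncard : ℝ) / ∏ i ∈ I, ((part ⁻¹' {i}).ncard : ℝ)

/-- The hypergraph `E` contains a copy of the hypergraph `H`. -/
def Contains {W V : Type} (H : Set (Finset W)) (E : Set (Finset V)) : Prop :=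
  ∃ φ : W ↪ V, ∀ e ∈ H, e.map φ ∈ E

/-- `d_t(H)` for the `r`-graph `H`. -/
noncomputable def dt {W : Type} (r t : ℕ) (H : Set (Finset W)) : ℝ :=
  sInf {α : ℝ | 0 ≤ α ∧ α ≤ 1 ∧ ∀ (V : Type) [Finite V] (part : V → Fin t) (E : Set (Finset V)),
    IsPartite r part E → (∀ I : Finset (Fin t), I.card = r → α ≤ density part E I) →
      Contains H E}

/-- The path with two edges. -/
def P : Set (Finset (Fin 3)) := {{0, 1}, {1, 2}}

/-- the matching on `Fin t × Fin t` -/
def M (t : ℕ) : Set (Finset (Fin t × Fin t)) := {e | ∃ i j : Fin t, i ≠ j ∧ e = {(i, j), (j, i)}}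

lemma M_partite {t : ℕ} (ht : 0 < t) : IsPartite 2 (Prod.fst : Fin t × Fin t → Fin t) (M t) := by
  refine ⟨fun i => ⟨(i, ⟨0, ht⟩), rfl⟩, ?_⟩
  rintro e ⟨i, j, hij, rfl⟩
  constructor
  · rw [Finset.card_pair]
    intro h
    exact hij (congrArg Prod.fst h)
  · intro x hx y hy hxy
    simp only [Finset.coe_insert, Finset.coe_singleton, Set.mem_insert_iff,
      Set.mem_singleton_iff] at hx hy
    rcases hx with rfl | rfl <;> rcases hy with rfl | rfl
    · rfl
    · exact absurd hxy hij
    · exact absurd hxy.symm hij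
    · rfl

lemma M_swap {t : ℕ} (a b : Fin t × Fin t) (hab : a ≠ b)
    (h : ({a, b} : Finset (Fin t × Fin t)) ∈ M t) : b = (a.2, a.1) := by
  obtain ⟨i, j, hij, h⟩ := h
  have ha : a ∈ ({(i, j), (j, i)} : Finset (Fin t × Fin t)) := by rw [← h]; simp
  have hb : b ∈ ({(i, j), (j, i)} : Finset (Fin t × Fin t)) := by rw [← h]; simp
  simp only [Finset.mem_insert, Finset.mem_singleton] at ha hb
  rcases ha with rfl | rfl <;> rcases hb with rfl | rfl
  · exact absurd rfl hab
  · rfl
  · rfl
  · exact absurd rfl hab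

lemma M_free {t : ℕ} : ¬ Contains P (M t) := by
  rintro ⟨φ, h⟩
  have h01 := h {0, 1} (by simp [P])
  have h12 := h {1, 2} (by simp [P])
  rw [Finset.map_insert, Finset.map_singleton] at h01 h12
  have inj : Function.Injective φ := φ.injective
  have n01 : φ 0 ≠ φ 1 := fun hh => absurd (inj hh) (by decide)
  have n12 : φ 1 ≠ φ 2 := fun hh => absurd (inj hh) (by decide)
  have e1 := M_swap (φ 1) (φ 0) n01.symm (by rw [Finset.pair_comm]; exact h01)
  have e2 := M_swap (φ 1) (φ 2) n12 h12
  exact absurd (inj (e1.trans e2.symm)) (by decide)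

lemma M_density {t : ℕ} (I : Finset (Fin t)) (hI : I.card = 2) :
    1 / (t : ℝ) ^ 2 ≤ density (Prod.fst : Fin t × Fin t → Fin t) (M t) I := by
  obtain ⟨i, j, hij, rfl⟩ := Finset.card_eq_two.mp hI
  unfold density
  have hsize : ∀ k : Fin t, ((Prod.fst : Fin t × Fin t → Fin t) ⁻¹' {k}).ncard = t := by
    intro k
    have : ((Prod.fst : Fin t × Fin t → Fin t) ⁻¹' {k}) =
        (fun l : Fin t => ((k, l) : Fin t × Fin t)) '' Set.univ := by
      ext ⟨a, b⟩
      simp only [Set.mem_preimage, Set.mem_singleton_iff, Set.image_univ, Set.mem_range,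
        Prod.mk.injEq]
      constructor
      · rintro rfl; exact ⟨b, rfl, rfl⟩
      · rintro ⟨_, rfl, _⟩; rfl
    rw [this, Set.ncard_image_of_injective _ (fun a b h => (Prod.mk.inj h).2), Set.ncard_univ,
      Nat.card_eq_fintype_card, Fintype.card_fin]
  have hprod : ∏ k ∈ ({i, j} : Finset (Fin t)),
      ((((Prod.fst : Fin t × Fin t → Fin t) ⁻¹' {k}).ncard : ℕ) : ℝ) = (t : ℝ) ^ 2 := by
    rw [Finset.prod_pair hij, hsize, hsize]
    ring
  rw [hprod]
  refine div_le_div_of_nonneg_right ?_ (by positivity)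
  have : 0 < {e ∈ M t | ∀ k ∈ ({i, j} : Finset (Fin t)), ∃ v ∈ e, v.1 = k}.ncard := by
    rw [Set.ncard_pos (Set.toFinite _)]
    refine ⟨{(i, j), (j, i)}, ⟨i, j, hij, rfl⟩, ?_⟩
    intro k hk
    simp only [Finset.mem_insert, Finset.mem_singleton] at hk
    rcases hk with rfl | rfl
    · exact ⟨(k, j), by simp, rfl⟩
    · exact ⟨(k, i), by simp, rfl⟩
  exact_mod_cast this

/-- two edges of a graph not containing the path are disjoint -/
lemma disj_of_free {V : Type} [DecidableEq V] (E : Set (Finset V)) (hE : ∀ e ∈ E, e.card = 2)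
    (h : ¬ Contains P E) (e f : Finset V) (he : e ∈ E) (hf : f ∈ E) (x : V) (hxe : x ∈ e)
    (hxf : x ∈ f) : e = f := by
  by_contra hne
  apply h
  obtain ⟨a, hxa, ha⟩ : ∃ a, x ≠ a ∧ e = {x, a} := by
    obtain ⟨a, b, hab, rfl⟩ := Finset.card_eq_two.mp (hE e he)
    simp only [Finset.mem_insert, Finset.mem_singleton] at hxe
    rcases hxe with rfl | rfl
    · exact ⟨b, hab, rfl⟩
    · exact ⟨a, hab.symm, Finset.pair_comm _ _⟩
  obtain ⟨b, hxb, hb⟩ : ∃ a, x ≠ a ∧ f = {x, a} := by
    obtain ⟨a, b, hab, rfl⟩ := Finset.card_eq_two.mp (hE f hf)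
    simp only [Finset.mem_insert, Finset.mem_singleton] at hxf
    rcases hxf with rfl | rfl
    · exact ⟨b, hab, rfl⟩
    · exact ⟨a, hab.symm, Finset.pair_comm _ _⟩
  have hab : a ≠ b := fun hh => hne (by rw [ha, hb, hh])
  let g : Fin 3 → V := ![a, x, b]
  have hg : Function.Injective g := by
    intro i j hij
    fin_cases i <;> fin_cases j <;> simp [g] at hij ⊢
    · exact hxa hij.symm
    · exact hab hij
    · exact hxa hij
    · exact hxb hij
    · exact hab hij.symm
    · exact hxb hij.symm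
  refine ⟨⟨g, hg⟩, ?_⟩
  rintro e' (rfl | rfl)
  · rw [Finset.map_insert, Finset.map_singleton]
    change {g 0, g 1} ∈ E
    simp only [g, Matrix.cons_val_zero, Matrix.cons_val_one]
    rw [Finset.pair_comm, ← ha]
    exact he
  · rw [Finset.map_insert, Finset.map_singleton]
    change {g 1, g 2} ∈ E
    have : ({g 1, g 2} : Finset V) = {x, b} := rfl
    rw [this, ← hb]
    exact hf

/-- upper bound -/
lemma free_bound {V : Type} [Finite V] {t : ℕ} (ht : 2 ≤ t) (part : V → Fin t)
    (E : Set (Finset V)) (hP : IsPartite 2 part E) (h : ¬ Contains P E) (α : ℝ) (hα : 0 < α)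
    (hd : ∀ I : Finset (Fin t), I.card = 2 → α ≤ density part E I) :
    α * ((t : ℝ) - 1) ^ 2 ≤ 1 := by
  classical
  obtain ⟨hsurj, hE⟩ := hP
  have := Fintype.ofFinite V
  -- sizes
  let n : Fin t → ℕ := fun i => (part ⁻¹' {i}).ncard
  have hn : ∀ i, 0 < n i := by
    intro i
    rw [Set.ncard_pos (Set.toFinite _)]
    obtain ⟨v, hv⟩ := hsurj i
    exact ⟨v, hv⟩
  -- number of edges between i and j
  let m : Fin t → Fin t → ℕ := fun i j =>
    {e ∈ E | ∀ k ∈ ({i, j} : Finset (Fin t)), ∃ v ∈ e, part v = k}.ncard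
  have hm : ∀ i j, i ≠ j → α * (n i * n j) ≤ m i j := by
    intro i j hij
    have h1 := hd {i, j} (Finset.card_pair hij)
    unfold density at h1
    rw [Finset.prod_pair hij] at h1
    rw [le_div_iff₀ (by
      have h1 : (0 : ℝ) < n i := by exact_mod_cast hn i
      have h2 : (0 : ℝ) < n j := by exact_mod_cast hn j
      exact mul_pos h1 h2)] at h1
    exact h1
  have hm1 : ∀ i j, i ≠ j → 1 ≤ m i j := by
    intro i j hij
    have h1 : (0 : ℝ) < n i := by exact_mod_cast hn i
    have h2 : (0 : ℝ) < n j := by exact_mod_cast hn j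
    have := lt_of_lt_of_le (mul_pos hα (mul_pos h1 h2)) (hm i j hij)
    exact_mod_cast this
  -- the edges at part i are disjoint
  have key : ∀ i, ∑ j ∈ Finset.univ.erase i, m i j ≤ n i := by
    intro i
    -- injection from Σ j, edges between i and j, to the part i
    have hfin : ∀ j, {e ∈ E | ∀ k ∈ ({i, j} : Finset (Fin t)), ∃ v ∈ e, part v = k}.Finite :=
      fun j => Set.toFinite _
    let S : Fin t → Finset (Finset V) := fun j => (hfin j).toFinset
    have hS : ∀ j, m i j = (S j).card := fun j => Set.ncard_eq_toFinset_card _ (hfin j)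
    have hdisj : Set.PairwiseDisjoint (↑(Finset.univ.erase i) : Set (Fin t)) S := by
      intro j hj k hk hjk
      rw [Function.onFun, Finset.disjoint_left]
      intro e hej hek
      simp only [S, Set.Finite.mem_toFinset] at hej hek
      have hji : j ≠ i := by simpa using hj
      have hki : k ≠ i := by simpa using hk
      obtain ⟨heE, hej⟩ := hej
      obtain ⟨_, hek⟩ := hek
      obtain ⟨u, hu, hui⟩ := hej i (by simp)
      obtain ⟨v, hv, hvj⟩ := hej j (by simp)
      obtain ⟨w, hw, hwk⟩ := hek k (by simp)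
      have h3 : ({u, v, w} : Finset V).card ≤ e.card := Finset.card_le_card (by
        intro x hx
        simp only [Finset.mem_insert, Finset.mem_singleton] at hx
        rcases hx with rfl | rfl | rfl <;> assumption)
      rw [(hE e heE).1] at h3
      have huv : u ≠ v := fun hh => hji (by rw [← hvj, ← hui, hh])
      have huw : u ≠ w := fun hh => hki (by rw [← hwk, ← hui, hh])
      have hvw : v ≠ w := fun hh => hjk (by rw [← hvj, ← hwk, hh])
      rw [Finset.card_insert_of_notMem (by simp [huv, huw]), Finset.card_pair hvw] at h3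
      omega
    simp_rw [hS]
    rw [← Finset.card_biUnion (fun x hx y hy hxy => hdisj hx hy hxy)]
    -- choose a vertex in part i
    let U : Finset (Finset V) := (Finset.univ.erase i).biUnion S
    have hU : ∀ e ∈ U, e ∈ E ∧ ∃ v ∈ e, part v = i := by
      intro e he
      simp only [U, Finset.mem_biUnion, S, Set.Finite.mem_toFinset] at he
      obtain ⟨j, _, heE, h⟩ := he
      exact ⟨heE, h i (by simp)⟩
    have : Nonempty V := ⟨(hsurj ⟨0, by omega⟩).choose⟩
    let g : Finset V → V := fun e => if h : ∃ v ∈ e, part v = i then h.choose else Classical.arbitrary V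
    have hg : ∀ e ∈ U, g e ∈ e ∧ part (g e) = i := by
      intro e he
      have h := (hU e he).2
      simp only [g, dif_pos h]
      exact h.choose_spec
    have hcard : U.card ≤ ((part ⁻¹' {i}).toFinset).card := by
      apply Finset.card_le_card_of_injOn g
      · intro e he
        simp only [Set.coe_toFinset, Set.mem_preimage, Set.mem_singleton_iff]
        exact (hg e he).2
      · intro e he f hf hef
        exact disj_of_free E (fun e he => (hE e he).1) h e f (hU e he).1 (hU f hf).1 (g e)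
          (hg e he).1 (by rw [hef]; exact (hg f hf).1)
    have hni : n i = ((part ⁻¹' {i}).toFinset).card := Set.ncard_eq_toFinset_card' _
    rw [hni]
    exact hcard
  have hcard : ∀ i : Fin t, ((Finset.univ.erase i).card : ℝ) = (t : ℝ) - 1 := by
    intro i
    rw [Finset.card_erase_of_mem (Finset.mem_univ i), Finset.card_univ, Fintype.card_fin,
      Nat.cast_sub (by omega)]
    simp
  have hbig : ∀ i, (t : ℝ) - 1 ≤ n i := by
    intro i
    have h1 : ∑ j ∈ Finset.univ.erase i, (1 : ℝ) ≤ ∑ j ∈ Finset.univ.erase i, (m i j : ℝ) :=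
      Finset.sum_le_sum (fun j hj => by
        have : i ≠ j := by simpa using (Finset.ne_of_mem_erase hj).symm
        exact_mod_cast hm1 i j this)
    have h2 : ∑ j ∈ Finset.univ.erase i, (m i j : ℝ) ≤ n i := by exact_mod_cast key i
    rw [Finset.sum_const, nsmul_eq_mul, mul_one, hcard] at h1
    linarith
  -- conclude
  have i0 : Fin t := ⟨0, by omega⟩
  have ht1 : (0 : ℝ) ≤ (t : ℝ) - 1 := by
    have : (2 : ℝ) ≤ t := by exact_mod_cast ht
    linarith
  have h2 : ∑ j ∈ Finset.univ.erase i0, (m i0 j : ℝ) ≤ n i0 := by exact_mod_cast key i0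
  have h3 : ∑ j ∈ Finset.univ.erase i0, (α * (n i0 * ((t : ℝ) - 1))) ≤
      ∑ j ∈ Finset.univ.erase i0, (m i0 j : ℝ) := by
    refine Finset.sum_le_sum (fun j hj => ?_)
    have hne : i0 ≠ j := by simpa using (Finset.ne_of_mem_erase hj).symm
    refine le_trans ?_ (hm i0 j hne)
    have := hbig j
    have h0 : (0 : ℝ) ≤ n i0 := by positivity
    exact mul_le_mul_of_nonneg_left (mul_le_mul_of_nonneg_left this h0) hα.le
  rw [Finset.sum_const, nsmul_eq_mul, hcard] at h3
  have hpos : (0 : ℝ) < n i0 := by exact_mod_cast hn i0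
  have h4 : (n i0 : ℝ) * (α * ((t : ℝ) - 1) ^ 2) ≤ (n i0 : ℝ) * 1 := by
    calc (n i0 : ℝ) * (α * ((t : ℝ) - 1) ^ 2)
        = ((t : ℝ) - 1) * (α * (n i0 * ((t : ℝ) - 1))) := by ring
      _ ≤ n i0 := le_trans h3 h2
      _ = n i0 * 1 := by ring
  exact le_of_mul_le_mul_left h4 hpos

lemma one_mem {t : ℕ} (ht : 3 ≤ t) : (1 : ℝ) ∈ {α : ℝ | 0 ≤ α ∧ α ≤ 1 ∧
    ∀ (V : Type) [Finite V] (part : V → Fin t) (E : Set (Finset V)),
    IsPartite 2 part E → (∀ I : Finset (Fin t), I.card = 2 → α ≤ density part E I) →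
      Contains P E} := by
  refine ⟨by norm_num, le_refl _, ?_⟩
  intro V _ part E hP hd
  by_contra h
  have := free_bound (by omega) part E hP h 1 one_pos hd
  have h3 : (3 : ℝ) ≤ t := by exact_mod_cast ht
  nlinarith

lemma lower {t : ℕ} (ht : 3 ≤ t) : 1 / (t : ℝ) ^ 2 ≤ dt 2 t P := by
  unfold dt
  apply le_csInf
  · exact ⟨1, one_mem ht⟩
  · rintro α ⟨h0, h1, h⟩
    by_contra hlt
    push Not at hlt
    exact M_free (h (Fin t × Fin t) Prod.fst (M t) (M_partite (by omega))
      (fun I hI => le_trans hlt.le (M_density I hI)))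

lemma upper {t : ℕ} (ht : 3 ≤ t) : dt 2 t P ≤ 1 / ((t : ℝ) - 1) ^ 2 := by
  have h3 : (3 : ℝ) ≤ t := by exact_mod_cast ht
  have hpos : 0 < ((t : ℝ) - 1) ^ 2 := by nlinarith
  apply le_of_forall_pos_le_add
  intro ε hε
  by_cases hlarge : 1 ≤ 1 / ((t : ℝ) - 1) ^ 2 + ε
  · refine le_trans (csInf_le ⟨0, fun α hα => hα.1⟩ (one_mem ht)) hlarge
  · push Not at hlarge
    refine csInf_le ⟨0, fun α hα => hα.1⟩ ⟨by positivity, hlarge.le, ?_⟩
    intro V _ part E hP hd
    by_contra h
    have h1 := free_bound (by omega) part E hP h _ (by positivity) hd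
    rw [add_mul, one_div, inv_mul_cancel₀ hpos.ne'] at h1
    have := mul_pos hε hpos
    linarith

/-- **Main statement**: the path `P` with two edges is a `2`-graph for which `d_t(P)` is not
eventually constant. -/
theorem result : ∃ (r : ℕ) (W : Type) (_ : Finite W) (H : Set (Finset W)),
    2 ≤ r ∧ IsRGraph r H ∧
      ∀ t₀ : ℕ, Nat.card W ≤ t₀ → ∃ t : ℕ, t₀ < t ∧ dt r t H ≠ dt r t₀ H := by
  refine ⟨2, Fin 3, inferInstance, P, le_refl _, ?_, ?_⟩
  · rintro e (rfl | rfl) <;> decide
  · intro t₀ ht₀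
    have h3 : 3 ≤ t₀ := by simpa using ht₀
    refine ⟨t₀ + 2, by omega, ?_⟩
    have h1 := lower h3
    have h2 := upper (t := t₀ + 2) (by omega)
    have h4 : (3 : ℝ) ≤ t₀ := by exact_mod_cast h3
    have h5 : 1 / (((t₀ + 2 : ℕ) : ℝ) - 1) ^ 2 < 1 / (t₀ : ℝ) ^ 2 := by
      apply one_div_lt_one_div_of_lt (by positivity)
      push_cast
      nlinarith
    intro heq
    rw [heq] at h2
    linarith

end Pool.Agent.Helper45.Old.NotEventuallyConstant
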